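import Pool.Agent.Helper33_CON.GTyp

/-!
Squad CON: module G_H6 (no half integral roots when the maximal orthogonal frame has size 6)
-/

noncomputable section

namespace Pool.Agent.CON.H33

open Pool.Agent.H25Cong Pool.Agent.CON

variable {M : Type} [AddCommGroup M] {b : M → M → ℤ} {C : Set M} {s : ℤ}

/-- a bound for the rank by the size of a frame whose span contains multiples of the roots -/
lemma rank_bound {m d : ℕ} (G : Fin m → M) (c : ℤ) (hc : c ≠ 0)
    (h : ∀ x ∈ C, c • x ∈ Submodule.span ℤ (Set.range G)) (hr : Rk C d) : d ≤ m := by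
  obtain ⟨v, hv, hli⟩ := hr
  have hli' : LinearIndependent ℤ (fun i => c • v i) := by
    rw [Fintype.linearIndependent_iff] at hli ⊢
    intro g hg i
    have h1 : ∑ i, (c * g i) • v i = 0 := by
      rw [← hg]
      refine Finset.sum_congr rfl fun i _ => ?_
      rw [smul_smul, mul_comm]
    have h2 := hli (fun i => c * g i) h1 i
    rcases mul_eq_zero.mp h2 with h3 | h3
    · exact absurd h3 hc
    · exact h3
  let _ : Fintype (Set.range G) := Fintype.ofFinite _
  have h1 := linearIndependent_le_span_aux' (fun i => c • v i) hli' (Set.range G) (by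
    rintro _ ⟨i, rfl⟩
    exact h _ (hv i))
  rw [Fintype.card_fin] at h1
  refine le_trans h1 ?_
  have h2 := Finite.card_range_le G
  rw [Nat.card_eq_fintype_card, Nat.card_fin] at h2
  exact h2

/-- flipping an even number of signs of a half integral root -/
lemma flips (hFl : G_FLP) (hb : PD b) (hC : Irr b C s) {k : ℕ} {F : Fin k → M}
    (hF : DFr b C s k F) {ε : Fin k → ℤ} (hε : ∀ i, ε i = 1 ∨ ε i = -1) :
    ∀ (n : ℕ) (β : M) (η : Fin k → ℤ), (Finset.univ.filter fun i => η i ≠ ε i).card ≤ n →
      β ∈ C → (∀ i, η i = 1 ∨ η i = -1) → (∀ i, b β (F i) = η i * s) →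
      ∏ i, η i = ∏ i, ε i →
      ∃ β' ∈ C, (∀ i, b β' (F i) = ε i * s) ∧
        (2 : ℤ) • β - (2 : ℤ) • β' ∈ Submodule.span ℤ (Set.range F) := by
  intro n
  induction n with
  | zero =>
    intro β η hcard hβ hη hβF _
    have hall : ∀ i, η i = ε i := by
      intro i
      by_contra hne
      have : i ∈ Finset.univ.filter fun i => η i ≠ ε i := by simp [hne]
      have := Finset.card_pos.mpr ⟨i, this⟩
      omega
    exact ⟨β, hβ, fun i => by rw [hβF, hall], by rw [sub_self]; exact Submodule.zero_mem _⟩
  | succ n ih =>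
    intro β η hcard hβ hη hβF hprod
    by_cases hall : ∀ i, η i = ε i
    · exact ⟨β, hβ, fun i => by rw [hβF, hall], by rw [sub_self]; exact Submodule.zero_mem _⟩
    push Not at hall
    obtain ⟨i, hi⟩ := hall
    have hj : ∃ j, j ≠ i ∧ η j ≠ ε j := by
      by_contra hcon
      push Not at hcon
      have h1 : ∏ l, η l = η i * ∏ l ∈ Finset.univ.erase i, η l :=
        (Finset.mul_prod_erase _ _ (Finset.mem_univ i)).symm
      have h2 : ∏ l, ε l = ε i * ∏ l ∈ Finset.univ.erase i, ε l :=
        (Finset.mul_prod_erase _ _ (Finset.mem_univ i)).symm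
      have h3 : ∏ l ∈ Finset.univ.erase i, η l = ∏ l ∈ Finset.univ.erase i, ε l := by
        refine Finset.prod_congr rfl fun l hl => hcon l ?_
        exact (Finset.mem_erase.mp hl).1
      rw [h1, h2, h3] at hprod
      have h4 : ∏ l ∈ Finset.univ.erase i, ε l ≠ 0 := by
        rw [Finset.prod_ne_zero_iff]
        intro l _
        rcases hε l with h | h <;> rw [h] <;> norm_num
      exact hi (mul_right_cancel₀ h4 hprod)
    obtain ⟨j, hji, hj⟩ := hj
    obtain ⟨β₁, hβ₁, e₁, hβ₁F⟩ := hFl M b C s k F β η i j hb hC hF hβ hη hβF (Ne.symm hji)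
    have hη' : ∀ l, (if l = i ∨ l = j then - η l else η l) = 1 ∨
        (if l = i ∨ l = j then - η l else η l) = -1 := by
      intro l
      rcases hη l with h | h <;> split_ifs <;> simp [h]
    have hprod' : ∏ l, (if l = i ∨ l = j then - η l else η l) = ∏ l, ε l := by
      rw [← hprod]
      have e1 : ∀ l, (if l = i ∨ l = j then - η l else η l) =
          (if l ∈ ({i, j} : Finset (Fin k)) then (-1 : ℤ) else 1) * η l := by
        intro l
        by_cases hl : l = i ∨ l = j
        · rw [if_pos hl, if_pos (by simpa using hl)]; ring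
        · rw [if_neg hl, if_neg (by simpa using hl)]; ring
      rw [Finset.prod_congr rfl fun l _ => e1 l, Finset.prod_mul_distrib, Finset.prod_ite_mem,
        Finset.univ_inter, Finset.prod_pair (Ne.symm hji)]
      norm_num
    have hcard' : (Finset.univ.filter fun l =>
        (if l = i ∨ l = j then - η l else η l) ≠ ε l).card ≤ n := by
      have hsub : (Finset.univ.filter fun l =>
          (if l = i ∨ l = j then - η l else η l) ≠ ε l) ⊆
          (Finset.univ.filter fun l => η l ≠ ε l).erase i := by
        intro l hl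
        rw [Finset.mem_filter] at hl
        rw [Finset.mem_erase, Finset.mem_filter]
        by_cases hli : l = i
        · exfalso
          apply hl.2
          rw [if_pos (Or.inl hli), hli]
          rcases hη i with h | h <;> rcases hε i with h' | h' <;> rw [h, h'] <;> rw [h, h'] at hi
          · exact absurd rfl hi
          · norm_num
          · exact absurd rfl hi
        · by_cases hlj : l = j
          · exact ⟨hli, Finset.mem_univ _, by rw [hlj]; exact hj⟩
          · rw [if_neg (by simp [hli, hlj])] at hl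
            exact ⟨hli, hl⟩
      have h1 := Finset.card_le_card hsub
      rw [Finset.card_erase_of_mem (by simp [hi])] at h1
      omega
    obtain ⟨β', hβ', hβ'F, hspan⟩ := ih β₁ _ hcard' hβ₁ hη' hβ₁F hprod'
    refine ⟨β', hβ', hβ'F, ?_⟩
    have e2 : (2 : ℤ) • β - (2 : ℤ) • β' =
        ((2 : ℤ) • β₁ - (2 : ℤ) • β') + (η i • F i + η j • F j) := by
      rw [e₁]; abel
    rw [e2]
    exact Submodule.add_mem _ hspan (Submodule.add_mem _
      (Submodule.smul_mem _ _ (Submodule.subset_span ⟨i, rfl⟩))
      (Submodule.smul_mem _ _ (Submodule.subset_span ⟨j, rfl⟩)))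

lemma neg_root (hC : Irr b C s) {α : M} (hα : α ∈ C) : -α ∈ C := by
  have h1 := hC.refl α hα α hα 2 (by rw [hC.norm α hα])
  have e : α - (2 : ℤ) • α = -α := by module
  rwa [e] at h1

lemma norm_proj6 (hb : PD b) (hC : Irr b C s) {F : Fin 6 → M} (hF : DFr b C s 6 F) {β : M}
    (hβ : β ∈ C) {a : Fin 6 → ℤ} (ha : ∀ i, a i = 1 ∨ a i = -1)
    (haF : ∀ i, b β (F i) = a i * s) :
    b ((4 : ℤ) • β - ∑ i, a i • F i) ((4 : ℤ) • β - ∑ i, a i • F i) = 8 * s := by
  rw [inner_proj hb hF.1 hF.2.1 haF haF, hC.norm β hβ]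
  have : ∑ i, a i * a i = 6 := by
    have h1 : ∀ i, a i * a i = 1 := by
      intro i
      rcases ha i with h | h <;> rw [h] <;> norm_num
    simp [h1]
  rw [this]; ring

theorem g_h6 (hE : G_EXT) (hT : G_TYP) (hFl : G_FLP) : G_HALF 6 := by
  intro M _ b C s F α hb hC hF hmax hα ⟨ε, hε, hαF⟩ hrk
  have hs := hC.pos
  obtain ⟨hF1, hF2, hF3⟩ := id hF
  set W : Submodule ℤ M := Submodule.span ℤ (Set.range (Fin.cons α F : Fin 7 → M)) with hW
  have hαW : α ∈ W := Submodule.subset_span ⟨0, rfl⟩
  have hFW : ∀ i, F i ∈ W := fun i => Submodule.subset_span ⟨i.succ, by simp⟩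
  have hspanW : Submodule.span ℤ (Set.range F) ≤ W := by
    rw [Submodule.span_le]
    rintro _ ⟨i, rfl⟩
    exact hFW i
  have hPα := norm_proj6 hb hC hF hα hε hαF
  have hεε : ∀ i, ε i * ε i = 1 := by
    intro i
    rcases hε i with h | h <;> rw [h] <;> norm_num
  -- roots with the same signs
  have hsame : ∀ β ∈ C, (∀ i, b β (F i) = ε i * s) → (2 : ℤ) • β ∈ W := by
    intro β hβ hβF
    have h1 := inner_proj hb hF1 hF2 hαF hβF
    have h6 : ∑ i, ε i * ε i = 6 := by simp [hεε]
    rw [h6] at h1
    have hPβ := norm_proj6 hb hC hF hβ hε hβF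
    obtain ⟨k, hk⟩ := hC.dvd α hα β hβ
    rw [hk] at h1
    have hcs := hb.cs ((4 : ℤ) • α - ∑ i, ε i • F i) ((4 : ℤ) • β - ∑ i, ε i • F i)
    rw [hPα, hPβ, h1] at hcs
    -- (16 k s - 24 s)^2 ≤ 64 s^2
    have h2 : (16 * k - 24) ^ 2 ≤ 64 := by
      have : s ^ 2 * ((16 * k - 24) ^ 2) ≤ s ^ 2 * 64 := by nlinarith
      exact le_of_mul_le_mul_left this (by positivity)
    have h3 : k = 1 ∨ k = 2 := by
      have : 1 ≤ k := by nlinarith
      have : k ≤ 2 := by nlinarith
      omega
    rcases h3 with h3 | h3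
    · -- the sum of the projections is zero
      have h4 : ((4 : ℤ) • α - ∑ i, ε i • F i) + ((4 : ℤ) • β - ∑ i, ε i • F i) = 0 := by
        apply hb.eq_zero
        rw [hb.add_left, hb.add_right, hb.add_right, hb.symm ((4 : ℤ) • β - _)
          ((4 : ℤ) • α - _), hPα, hPβ, h1, h3]
        linarith
      have h5 : (2 : ℤ) • ((2 : ℤ) • β - (∑ i, ε i • F i - (2 : ℤ) • α)) = 0 := by
        rw [← h4]; module
      have h6 := hb.zsmul_eq_zero (by norm_num) h5
      rw [sub_eq_zero] at h6
      rw [h6]
      exact Submodule.sub_mem _ (Submodule.sum_mem _ fun i _ => Submodule.smul_mem _ _ (hFW i))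
        (Submodule.smul_mem _ _ hαW)
    · have h4 : α - β = 0 := by
        apply hb.eq_zero
        rw [hb.sub_left, hb.sub_right, hb.sub_right, hb.symm β α, hk, h3, hC.norm α hα,
          hC.norm β hβ]
        linarith
      rw [sub_eq_zero] at h4
      rw [← h4]
      exact Submodule.smul_mem _ _ hαW
  -- no root of type 2 s e_i
  have hno : ∀ β ∈ C, ∀ i0, (b β (F i0) = 2 * s ∨ b β (F i0) = - (2 * s)) →
      (∀ j, j ≠ i0 → b β (F j) = 0) → False := by
    intro β hβ i0 h1 h2
    obtain ⟨F', hF'⟩ := hE M b C s 6 F β i0 hb hC (by norm_num) hF hβ h1 h2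
    exact hmax 7 (by norm_num) F' hF'
  -- half roots
  have hhalf : ∀ β ∈ C, ∀ η : Fin 6 → ℤ, (∀ i, η i = 1 ∨ η i = -1) →
      (∀ i, b β (F i) = η i * s) → (2 : ℤ) • β ∈ W := by
    intro β hβ η hη hβF
    have hprodε : ∏ i, η i = ∏ i, ε i ∨ ∏ i, η i = - ∏ i, ε i := by
      have h1 : ∀ f : Fin 6 → ℤ, (∀ i, f i = 1 ∨ f i = -1) → ∏ i, f i = 1 ∨ ∏ i, f i = -1 := by
        intro f hf
        have : (∏ i, f i) * (∏ i, f i) = 1 := by
          rw [← Finset.prod_mul_distrib]
          apply Finset.prod_eq_one
          intro i _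
          rcases hf i with h | h <;> rw [h] <;> norm_num
        exact mul_self_eq_one_iff.mp this
      rcases h1 η hη with h | h <;> rcases h1 ε hε with h' | h' <;> rw [h, h'] <;> simp
    rcases hprodε with h | h
    · obtain ⟨β', hβ', hβ'F, hsp⟩ := flips hFl hb hC hF hε _ β η le_rfl hβ hη hβF h
      have h1 := hsame β' hβ' hβ'F
      have h2 := Submodule.add_mem _ (hspanW hsp) h1
      rwa [sub_add_cancel] at h2
    · exfalso
      set ε' : Fin 6 → ℤ := fun i => if i = 0 then ε i else - ε i with hε'
      have hε'1 : ∀ i, ε' i = 1 ∨ ε' i = -1 := by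
        intro i
        by_cases hi : i = 0
        · simp only [hε', if_pos hi]
          exact hε i
        · simp only [hε', if_neg hi]
          rcases hε i with h | h <;> rw [h] <;> norm_num
      have hprod' : ∏ i, η i = ∏ i, ε' i := by
        rw [h]
        simp only [Fin.prod_univ_six, hε']
        norm_num [Fin.ext_iff]
      obtain ⟨β', hβ', hβ'F, -⟩ := flips hFl hb hC hF hε'1 _ β η le_rfl hβ hη hβF hprod'
      have h1 := inner_proj hb hF1 hF2 hαF hβ'F
      have h4 : ∑ i, ε i * ε' i = -4 := by
        simp only [Fin.sum_univ_six, hε']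
        norm_num [Fin.ext_iff, hεε]
      rw [h4] at h1
      have hPβ := norm_proj6 hb hC hF hβ' hε'1 hβ'F
      obtain ⟨k, hk⟩ := hC.dvd α hα β' hβ'
      rw [hk] at h1
      have hcs := hb.cs ((4 : ℤ) • α - ∑ i, ε i • F i) ((4 : ℤ) • β' - ∑ i, ε' i • F i)
      rw [hPα, hPβ, h1] at hcs
      have h2 : (16 * k + 16) ^ 2 ≤ 64 := by
        have : s ^ 2 * ((16 * k + 16) ^ 2) ≤ s ^ 2 * 64 := by nlinarith
        exact le_of_mul_le_mul_left this (by positivity)
      have h3 : k = -1 := by
        have h5 : -2 < k := by nlinarith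
        have h6 : k < 0 := by nlinarith
        omega
      have h5 : α + β' ∈ C := by
        have := hC.refl β' hβ' α hα (-1) (by rw [hb.symm, hk, h3]; ring)
        rwa [neg_one_smul, sub_neg_eq_add] at this
      refine hno (α + β') h5 0 ?_ ?_
      · rw [hb.add_left, hαF, hβ'F]
        rcases hε 0 with h' | h'
        · left; simp [hε', h']; ring
        · right; simp [hε', h']; ring
      · intro j hj
        rw [hb.add_left, hαF, hβ'F]
        simp [hε', hj]
  -- all the roots are in the span
  have hD : {x | x ∈ C ∧ (4 : ℤ) • x ∈ W} = C := by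
    refine hC.conn _ (fun x hx => hx.1) ⟨α, hα, Submodule.smul_mem _ _ hαW⟩ ?_
    rintro x ⟨hx, hxW⟩ y hy hyD
    have hfour : ∀ z ∈ C, (2 : ℤ) • z ∈ W → (4 : ℤ) • z ∈ W := by
      intro z _ hz
      have := Submodule.smul_mem W (2 : ℤ) hz
      rwa [smul_smul] at this
    have hy0 : (∀ i, b y (F i) = 0) ∧ b y α = 0 := by
      rcases hT M b C s 6 F y hb hC (by norm_num) hF hy with h | h | h | h
      · refine ⟨h, ?_⟩
        by_contra hne
        apply hyD
        refine ⟨hy, ?_⟩
        obtain ⟨k, hk⟩ := hC.dvd y hy α hα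
        have hrefl := hC.refl y hy α hα k (by rw [hk]; ring)
        have h1 : ∀ i, b (α - k • y) (F i) = ε i * s := by
          intro i
          rw [hb.sub_left, hb.zsmul_left, h i, hαF]; ring
        have h2 := hsame _ hrefl h1
        -- k is 1 or -1
        have hk0 : k ≠ 0 := by
          intro h0
          rw [h0, mul_zero] at hk
          exact hne hk
        have hcs := hb.cs y α
        rw [hk, hC.norm y hy, hC.norm α hα] at hcs
        have h3 : k ^ 2 ≤ 4 := by
          have : s ^ 2 * k ^ 2 ≤ s ^ 2 * 4 := by nlinarith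
          exact le_of_mul_le_mul_left this (by positivity)
        have h4 : k = 1 ∨ k = -1 ∨ k = 2 ∨ k = -2 := by
          have h5 : -3 < k := by nlinarith
          have h6 : k < 3 := by nlinarith
          omega
        have h5 : (2 * k) • y ∈ W := by
          have h6 : (2 * k) • y = (2 : ℤ) • α - (2 : ℤ) • (α - k • y) := by
            rw [smul_sub, smul_smul]; abel
          rw [h6]
          exact Submodule.sub_mem _ (Submodule.smul_mem _ _ hαW) h2
        rcases h4 with h4 | h4 | h4 | h4
        · rw [h4] at h5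
          exact hfour y hy (by simpa using h5)
        · rw [h4] at h5
          refine hfour y hy ?_
          have := Submodule.neg_mem _ h5
          simpa using this
        · rw [h4] at h5
          simpa using h5
        · rw [h4] at h5
          have := Submodule.neg_mem _ h5
          simpa using this
      · exfalso
        apply hyD
        refine ⟨hy, hfour y hy ?_⟩
        obtain ⟨i, j, -, h | h | h⟩ := h
        · rw [h]; exact Submodule.add_mem _ (hFW i) (hFW j)
        · rw [h]; exact Submodule.sub_mem _ (hFW i) (hFW j)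
        · rw [h]; exact Submodule.neg_mem _ (Submodule.add_mem _ (hFW i) (hFW j))
      · obtain ⟨i0, h1, h2⟩ := h
        exact (hno y hy i0 h1 h2).elim
      · obtain ⟨-, η, hη, hyF⟩ := h
        exact absurd ⟨hy, hfour y hy (hhalf y hy η hη hyF)⟩ hyD
    -- y is orthogonal to W
    have horth : ∀ w ∈ W, b y w = 0 := by
      intro w hw
      rw [hW] at hw
      induction hw using Submodule.span_induction with
      | mem w hw =>
        obtain ⟨i, rfl⟩ := hw
        refine Fin.cases ?_ (fun i => ?_) i
        · simpa using hy0.2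
        · simpa using hy0.1 i
      | zero => exact hb.zero_right y
      | add u v _ _ hu hv => rw [hb.add_right, hu, hv, add_zero]
      | smul c u _ hu => rw [hb.zsmul_right, hu, mul_zero]
    have h1 := horth _ hxW
    rw [hb.zsmul_right] at h1
    rw [hb.symm]
    omega
  have h9 : 9 ≤ 7 := rank_bound (Fin.cons α F : Fin 7 → M) 4 (by norm_num) (fun x hx => by
    rw [← hD] at hx
    exact hx.2) hrk
  omega

end Pool.Agent.CON.H33

end
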