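import Pool.Agent.Helper25_CON.PDLem

/-!
Squad CON: module G_TYP (the types of a root with respect to an orthogonal frame)
-/

noncomputable section

namespace Pool.Agent.CON.H33

open Pool.Agent.H25Cong Pool.Agent.CON

variable {M : Type} [AddCommGroup M] {b : M → M → ℤ} {C : Set M} {s : ℤ}

/-- the projections orthogonal to the frame, scaled by 4 -/
lemma inner_proj (hb : PD b) {k : ℕ} {F : Fin k → M} (hF1 : ∀ i, b (F i) (F i) = 4 * s)
    (hF2 : ∀ i j, i ≠ j → b (F i) (F j) = 0) {α β : M} {a c : Fin k → ℤ}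
    (ha : ∀ i, b α (F i) = a i * s) (hc : ∀ i, b β (F i) = c i * s) :
    b ((4 : ℤ) • α - ∑ i, a i • F i) ((4 : ℤ) • β - ∑ i, c i • F i) =
      16 * b α β - 4 * s * ∑ i, a i * c i := by
  have h1 : b α (∑ i, c i • F i) = s * ∑ i, a i * c i := by
    rw [hb.sum_right, Finset.mul_sum]
    refine Finset.sum_congr rfl fun i _ => ?_
    rw [hb.zsmul_right, ha]; ring
  have h2 : b (∑ i, a i • F i) β = s * ∑ i, a i * c i := by
    rw [hb.sum_left, Finset.mul_sum]
    refine Finset.sum_congr rfl fun i _ => ?_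
    rw [hb.zsmul_left, hb.symm, hc]; ring
  have h3 : b (∑ i, a i • F i) (∑ i, c i • F i) = 4 * s * ∑ i, a i * c i := by
    rw [hb.sum_left, Finset.mul_sum]
    refine Finset.sum_congr rfl fun i _ => ?_
    rw [hb.zsmul_left, hb.sum_right, Finset.sum_eq_single i]
    · rw [hb.zsmul_right, hF1]; ring
    · intro j _ hj
      rw [hb.zsmul_right, hF2 i j (Ne.symm hj), mul_zero]
    · intro h; exact absurd (Finset.mem_univ _) h
  rw [hb.sub_left, hb.sub_right, hb.sub_right, hb.zsmul_left, hb.zsmul_left, hb.zsmul_right,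
    hb.zsmul_right, h1, h2, h3]
  ring

/-- the products of a root with the frame vectors are multiples of s of the same parity -/
lemma frame_coeff (hb : PD b) (hC : Irr b C s) {k : ℕ} {F : Fin k → M} (hk : 2 ≤ k)
    (hF : DFr b C s k F) {α : M} (hα : α ∈ C) :
    ∃ a : Fin k → ℤ, (∀ i, b α (F i) = a i * s) ∧ ∀ i j, (2 : ℤ) ∣ a i - a j := by
  obtain ⟨hF1, hF2, hF3⟩ := hF
  have hs := hC.pos
  have h1 : ∀ i, ∃ a : ℤ, b α (F i) = a * s := by
    intro i
    have : Nontrivial (Fin k) := Fin.nontrivial_iff_two_le.mpr hk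
    obtain ⟨j, hj⟩ := exists_ne i
    obtain ⟨⟨w, hw, ew⟩, ⟨w', hw', ew'⟩⟩ := hF3 i j (Ne.symm hj)
    obtain ⟨x, hx⟩ := hC.dvd α hα w hw
    obtain ⟨y, hy⟩ := hC.dvd α hα w' hw'
    have e1 : b α ((2 : ℤ) • w) + b α ((2 : ℤ) • w') = 2 * b α (F i) := by
      rw [ew, ew', hb.add_right, hb.sub_right]; ring
    rw [hb.zsmul_right, hb.zsmul_right, hx, hy] at e1
    refine ⟨x + y, ?_⟩
    linarith
  choose a ha using h1
  refine ⟨a, ha, fun i j => ?_⟩
  by_cases hij : i = j
  · rw [hij, sub_self]; exact dvd_zero _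
  · obtain ⟨-, ⟨w', hw', ew'⟩⟩ := hF3 i j hij
    obtain ⟨y, hy⟩ := hC.dvd α hα w' hw'
    have e1 : b α ((2 : ℤ) • w') = (a i - a j) * s := by
      rw [ew', hb.sub_right, ha, ha]; ring
    rw [hb.zsmul_right, hy] at e1
    refine ⟨y, ?_⟩
    have : (a i - a j - 2 * y) * s = 0 := by linarith
    rcases mul_eq_zero.mp this with h | h
    · linarith
    · omega

theorem g_typ : G_TYP := by
  intro M _ b C s k F α hb hC hk hF hα
  have hs := hC.pos
  obtain ⟨a, ha, hpar⟩ := frame_coeff hb hC hk hF hα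
  have hF' := hF
  obtain ⟨hF1, hF2, hF3⟩ := hF'
  have hin := inner_proj hb hF1 hF2 ha ha
  rw [hC.norm α hα] at hin
  have hnn := hb.nonneg ((4 : ℤ) • α - ∑ i, a i • F i)
  rw [hin] at hnn
  have hsum : ∑ i, a i * a i ≤ 8 := by
    by_contra hcon
    push Not at hcon
    nlinarith
  have hle : ∀ i, a i * a i ≤ 8 := fun i =>
    le_trans (Finset.single_le_sum (f := fun i => a i * a i) (fun j _ => mul_self_nonneg _)
      (Finset.mem_univ i)) hsum
  have hbd : ∀ i, -2 ≤ a i ∧ a i ≤ 2 := by
    intro i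
    have := hle i
    constructor <;> nlinarith
  have i0 : Fin k := ⟨0, by omega⟩
  rcases Int.even_or_odd (a i0) with hev | hod
  · -- all even
    have hall : ∀ i, a i = 0 ∨ a i = 2 ∨ a i = -2 := by
      intro i
      have h1 := hpar i i0
      have h2 := hbd i
      obtain ⟨m, hm⟩ := hev
      omega
    by_cases h0 : ∀ i, a i = 0
    · left
      intro i
      rw [ha, h0, zero_mul]
    push Not at h0
    obtain ⟨i, hi⟩ := h0
    by_cases h1 : ∀ j, j ≠ i → a j = 0
    · right; right; left
      refine ⟨i, ?_, fun j hj => by rw [ha, h1 j hj, zero_mul]⟩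
      rcases hall i with h | h | h
      · exact absurd h hi
      · left; rw [ha, h]
      · right; rw [ha, h]; ring
    push Not at h1
    obtain ⟨j, hji, hj⟩ := h1
    right; left
    -- the sum of squares is 8
    have hsq : ∀ l, a l ≠ 0 → a l * a l = 4 := by
      intro l hl
      rcases hall l with h | h | h
      · exact absurd h hl
      · rw [h]; norm_num
      · rw [h]; norm_num
    have hpair : ∑ l ∈ ({i, j} : Finset (Fin k)), a l * a l = 8 := by
      rw [Finset.sum_pair (Ne.symm hji), hsq i hi, hsq j hj]; norm_num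
    have hsplit : ∑ l ∈ ({i, j} : Finset (Fin k)), a l * a l +
        ∑ l ∈ Finset.univ \ ({i, j} : Finset (Fin k)), a l * a l = ∑ l, a l * a l := by
      rw [add_comm]
      exact Finset.sum_sdiff (Finset.subset_univ _)
    have hrest : ∑ l ∈ Finset.univ \ ({i, j} : Finset (Fin k)), a l * a l = 0 := by
      apply le_antisymm
      · linarith
      · exact Finset.sum_nonneg fun l _ => mul_self_nonneg _
    have hzero : ∀ l, l ≠ i → l ≠ j → a l = 0 := by
      intro l hli hlj
      have := (Finset.sum_eq_zero_iff_of_nonneg (fun l _ => mul_self_nonneg (a l))).mp hrest l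
        (by simp [hli, hlj])
      exact mul_self_eq_zero.mp this
    have htot : ∑ l, a l * a l = 8 := by rw [← hsplit, hpair, hrest]; norm_num
    have hz : (4 : ℤ) • α - ∑ l, a l • F l = 0 := by
      apply hb.eq_zero
      rw [hin, htot]
      linarith
    have hsumF : ∑ l, a l • F l = a i • F i + a j • F j := by
      rw [← Finset.sum_subset (Finset.subset_univ ({i, j} : Finset (Fin k)))]
      · rw [Finset.sum_pair (Ne.symm hji)]
      · intro l _ hl
        simp only [Finset.mem_insert, Finset.mem_singleton, not_or] at hl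
        rw [hzero l hl.1 hl.2, zero_smul]
    rw [hsumF] at hz
    have hdiv : ∀ x : M, (4 : ℤ) • α = (2 : ℤ) • x → (2 : ℤ) • α = x := by
      intro x hx
      have h5 : (2 : ℤ) • ((2 : ℤ) • α - x) = 0 := by
        rw [smul_sub, smul_smul, ← hx]; norm_num
      have := hb.zsmul_eq_zero (by norm_num) h5
      rwa [sub_eq_zero] at this
    have hz' : (4 : ℤ) • α = a i • F i + a j • F j := by rwa [sub_eq_zero] at hz
    rcases hall i with h | h | h
    · exact absurd h hi
    · rcases hall j with h' | h' | h'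
      · exact absurd h' hj
      · refine ⟨i, j, Ne.symm hji, Or.inl (hdiv _ ?_)⟩
        rw [hz', h, h', smul_add]
      · refine ⟨i, j, Ne.symm hji, Or.inr (Or.inl (hdiv _ ?_))⟩
        rw [hz', h, h', smul_sub, neg_smul]; abel
    · rcases hall j with h' | h' | h'
      · exact absurd h' hj
      · refine ⟨j, i, hji, Or.inr (Or.inl (hdiv _ ?_))⟩
        rw [hz', h, h', smul_sub, neg_smul]; abel
      · refine ⟨i, j, Ne.symm hji, Or.inr (Or.inr (hdiv _ ?_))⟩
        rw [hz', h, h', smul_neg, smul_add, neg_smul, neg_smul]; abel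
  · -- all odd
    right; right; right
    have hall : ∀ i, a i = 1 ∨ a i = -1 := by
      intro i
      have h1 := hpar i i0
      have h2 := hbd i
      obtain ⟨m, hm⟩ := hod
      omega
    refine ⟨?_, a, hall, ha⟩
    have h1 : ∑ i : Fin k, (1 : ℤ) ≤ ∑ i, a i * a i := by
      apply Finset.sum_le_sum
      intro i _
      rcases hall i with h | h <;> rw [h] <;> norm_num
    simp at h1
    have h2 : (k : ℤ) ≤ 8 := le_trans h1 hsum
    exact_mod_cast h2

end Pool.Agent.CON.H33

end
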